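import Pool.Agent.CA247.Fin

/-!
# Q2 of `MP_c2e4b2_gt` has a negative answer, in degree 9

All definitions of the statement are in `Pool/Agent/CA247/Defs.lean` (diagrams, 4T, 6T, the spaces,
the isolated chords and arrows, the sum of all orientations) and in `Pool/Agent/CA247/Fin.lean`
(the linear maps `phi d` and `phiBar d` it induces).

The element `x` is a totally antisymmetric network with three legs on the interval and fifteen
trivalent vertices, built from two copies of a two-loop piece `K` with four antisymmetric legs
(two ways of joining the copies, in the combination `M3 - 3 * M2`). Its image dies modulo isolated
arrows because of an identity between chord vertices and antisymmetrised arrows (a consequence of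
6T, file `Base3.lean`), repeated along the network (files `L1.lean`, `L2.lean`, `MZ.lean`); it is
not in `FI` because the deframed weight system of `gl_3` does not vanish on it (`Val2.lean`).
-/

set_option autoImplicit false

namespace Pool.Agent.Results.MP_c2e4b2_gt.PhiBarNotInjective

open CA247

/-- There is an element `x` of the chord diagram space of degree `9` that is not in the span `FI` of
the diagrams with an isolated chord, while `φ_9 (x)` lies in the span of the arrow diagrams with an
isolated arrow; that is, the induced map `φ̄_9` is not injective. -/
theorem result :
    (∃ x : ChordSp 9, x ∉ FI 9 ∧ phi 9 x ∈ aFI 9) ∧ ¬ Function.Injective (phiBar 9) :=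
  ⟨main, not_injective⟩

end Pool.Agent.Results.MP_c2e4b2_gt.PhiBarNotInjective
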